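import Pool.Agent.U762.DZ.Stm

set_option autoImplicit false

/-! # Project DZ, package LAW: the explicit law is slowly varying -/

namespace Pool.Agent.U430.DZ

open Finset MeasureTheory Filter Pool.Agent.U762.RP Pool.Agent.U762.DZ

theorem rare_singleton (ε : ℝ) (N : ℕ) (u : ℤ) : rare ε N {u} =
    ENNReal.ofReal (1 - ε) * (if u = 0 then 1 else 0) +
      ENNReal.ofReal (ε / N) * (if 0 ≤ u ∧ u < N then 1 else 0) := by
  rw [rare_apply]
  congr 1
  · congr 1
    rw [Measure.dirac_apply' _ (MeasurableSet.of_discrete)]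
    by_cases h : u = 0
    · simp [h]
    · rw [if_neg h, Set.indicator_of_notMem]
      simpa using fun h' => h h'.symm
  · by_cases h : 0 ≤ u ∧ u < N
    · rw [if_pos h, mul_one]
      obtain ⟨h0, h1⟩ := h
      lift u to ℕ using h0
      have h1' : u < N := by exact_mod_cast h1
      rw [Finset.sum_eq_single u]
      · rw [Measure.dirac_apply_of_mem (Set.mem_singleton _), mul_one]
      · intro b _ hb
        rw [Measure.dirac_apply' _ (MeasurableSet.of_discrete), Set.indicator_of_notMem, mul_zero]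
        simpa using hb
      · intro hu
        exact absurd (mem_range.2 h1') hu
    · rw [if_neg h, mul_zero]
      refine sum_eq_zero fun b hb => ?_
      rw [mem_range] at hb
      rw [Measure.dirac_apply' _ (MeasurableSet.of_discrete), Set.indicator_of_notMem, mul_zero]
      rw [Set.mem_singleton_iff]
      rintro rfl
      exact h ⟨by positivity, by exact_mod_cast hb⟩

theorem rare_real {ε : ℝ} (h0 : 0 ≤ ε) (h1 : ε ≤ 1) (N : ℕ) (u : ℤ) : (rare ε N).real {u} =
    (1 - ε) * (if u = 0 then 1 else 0) + ε / N * (if 0 ≤ u ∧ u < N then 1 else 0) := by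
  rw [measureReal_def, rare_singleton, ENNReal.toReal_add, ENNReal.toReal_mul, ENNReal.toReal_mul,
    ENNReal.toReal_ofReal (by linarith), ENNReal.toReal_ofReal (by positivity)]
  · congr 1
    · split_ifs <;> simp
    · split_ifs <;> simp
  · split_ifs <;> simp
  · split_ifs <;> simp

theorem log_ge {X : ℝ} (hX : 0 ≤ X) : 0 < Real.log (2 + X) := Real.log_pos (by linarith)

theorem eps_nonneg {a : ℝ} (ha : 0 < a) (x : ℤ) : 0 ≤ eps a x := by
  unfold eps
  have := log_ge (abs_nonneg (x : ℝ))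
  positivity

theorem eps_le_one (a : ℝ) (x : ℤ) : eps a x ≤ 1 := min_le_left _ _

theorem siz_pos (δ : ℝ) (x : ℤ) : 0 < siz δ x := by
  unfold siz
  rw [Nat.ceil_pos]
  have := abs_nonneg (x : ℝ)
  positivity

theorem exp_log_rpow (δ : ℝ) (x : ℤ) :
    (2 + |(x : ℝ)|) ^ δ = Real.exp (δ * Real.log (2 + |(x : ℝ)|)) := by
  have := abs_nonneg (x : ℝ)
  rw [Real.rpow_def_of_pos (by linarith), mul_comm]

/-- all the conditions on the size -/
theorem large (δ : ℝ) (hδ : 0 < δ) (a : ℝ) (ha : 0 < a) : ∃ M₀ : ℝ, ∀ X : ℝ, M₀ ≤ X →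
    4 ≤ X ∧ 5 ≤ X ^ δ ∧ a + 2 ≤ Real.log X ∧ 8 * a * Real.log X ^ 2 ≤ X ^ δ := by
  have e1 : ∀ᶠ X : ℝ in atTop, 4 ≤ X := eventually_ge_atTop 4
  have e2 : ∀ᶠ X : ℝ in atTop, 5 ≤ X ^ δ := (tendsto_rpow_atTop hδ).eventually_ge_atTop 5
  have e3 : ∀ᶠ X : ℝ in atTop, a + 2 ≤ Real.log X := Real.tendsto_log_atTop.eventually_ge_atTop _
  have e4 : ∀ᶠ X : ℝ in atTop, 8 * a * Real.log X ^ 2 ≤ X ^ δ := by
    have h := isLittleO_log_rpow_atTop (half_pos hδ)
    have hc : 0 < 1 / (8 * a + 1) := by positivity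
    have h2 := h.def hc
    filter_upwards [h2, e1] with X hX h4
    have hX0 : 0 < X := by linarith
    have hl : 0 ≤ Real.log X := Real.log_nonneg (by linarith)
    rw [Real.norm_of_nonneg hl, Real.norm_of_nonneg (by positivity)] at hX
    have h5 : Real.log X ^ 2 ≤ (1 / (8 * a + 1) * X ^ (δ / 2)) ^ 2 := pow_le_pow_left₀ hl hX 2
    have h6 : (X ^ (δ / 2)) ^ 2 = X ^ δ := by
      rw [← Real.rpow_natCast, ← Real.rpow_mul hX0.le]
      congr 1
      push_cast
      ring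
    rw [mul_pow, h6] at h5
    have h7 : 8 * a * (1 / (8 * a + 1)) ^ 2 ≤ 1 := by
      rw [div_pow, one_pow, mul_one_div, div_le_one (by positivity)]
      nlinarith
    have h8 : 0 ≤ X ^ δ := by positivity
    calc 8 * a * Real.log X ^ 2 ≤ 8 * a * ((1 / (8 * a + 1)) ^ 2 * X ^ δ) := by gcongr
      _ = (8 * a * (1 / (8 * a + 1)) ^ 2) * X ^ δ := by ring
      _ ≤ 1 * X ^ δ := by gcongr
      _ = X ^ δ := one_mul _
  obtain ⟨M₀, hM⟩ := eventually_atTop.1 (e1.and (e2.and (e3.and e4)))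
  exact ⟨M₀, hM⟩

/-- the logarithms are close -/
theorem log_close {X X' : ℝ} (hX : 4 ≤ X) (hX' : 0 ≤ X') (h : |X' - X| ≤ X ^ (1 / 2 : ℝ)) :
    |Real.log (2 + X') - Real.log (2 + X)| ≤ 2 / X ^ (1 / 2 : ℝ) := by
  have hX0 : 0 < X := by linarith
  rw [← Real.sqrt_eq_rpow] at h ⊢
  have hs : 2 ≤ √X := Real.le_sqrt_of_sq_le (by linarith)
  have hss : √X * √X = X := Real.mul_self_sqrt hX0.le
  rw [abs_le] at h
  rw [abs_le]
  set s := √X with hs'
  have hs0 : 0 < s := by linarith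
  constructor
  · -- lower bound
    have h1 : (2 + X) ≤ (2 + X') * (1 + 2 / s) := by
      have h2 : X - s ≤ X' := by linarith
      have h3 : (2 + (X - s)) * (1 + 2 / s) ≤ (2 + X') * (1 + 2 / s) := by gcongr
      refine le_trans ?_ h3
      rw [← hss]
      have h4 : (2 + (s * s - s)) * (1 + 2 / s) = 2 + s * s - s + 4 / s + 2 * s - 2 := by
        field_simp
        ring
      rw [h4]
      have h5 : 0 < 4 / s := by positivity
      linarith
    have h2 : Real.log (2 + X) ≤ Real.log (2 + X') + Real.log (1 + 2 / s) := by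
      rw [← Real.log_mul (by linarith) (by positivity)]
      exact Real.log_le_log (by linarith) h1
    have h3 : Real.log (1 + 2 / s) ≤ 2 / s := by
      have := Real.log_le_sub_one_of_pos (show 0 < 1 + 2 / s by positivity)
      linarith
    linarith
  · have h1 : (2 + X') ≤ (2 + X) * (1 + 2 / s) := by
      have h2 : X' ≤ X + s := by linarith
      rw [← hss]
      have h4 : (2 + s * s) * (1 + 2 / s) = 2 + s * s + 4 / s + 2 * s := by
        field_simp
        ring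
      rw [h4]
      have h5 : 0 < 4 / s := by positivity
      have h6 : X' ≤ s * s + s := by rw [hss]; exact h2
      linarith
    have h2 : Real.log (2 + X') ≤ Real.log (2 + X) + Real.log (1 + 2 / s) := by
      rw [← Real.log_mul (by linarith) (by positivity)]
      exact Real.log_le_log (by linarith) h1
    have h3 : Real.log (1 + 2 / s) ≤ 2 / s := by
      have := Real.log_le_sub_one_of_pos (show 0 < 1 + 2 / s by positivity)
      linarith
    linarith

theorem exp_le_of_small {s : ℝ} (h0 : 0 ≤ s) (h1 : s ≤ 1 / 2) : Real.exp s ≤ 1 + 2 * s := by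
  have h2 := Real.one_sub_le_exp_neg s
  have h3 : 0 < 1 - s := by linarith
  have h4 : Real.exp s ≤ 1 / (1 - s) := by
    rw [le_div_iff₀ h3]
    calc Real.exp s * (1 - s) ≤ Real.exp s * Real.exp (-s) := by gcongr
      _ = 1 := by rw [← Real.exp_add]; simp
  refine h4.trans ?_
  rw [div_le_iff₀ h3]
  nlinarith

/-- the basic numbers -/
structure Num (δ a X : ℝ) : Prop where
  four : 4 ≤ X
  five : 5 ≤ X ^ δ
  lg : a + 2 ≤ Real.log X
  sq : 8 * a * Real.log X ^ 2 ≤ X ^ δ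

section

variable {δ a X : ℝ} (hδ : 0 < δ) (hδ' : δ ≤ 1 / 32) (ha : 0 < a) (H : Num δ a X)

include H in
theorem tau_bounds : 0 < 2 / X ^ (1 / 2 : ℝ) ∧ 2 / X ^ (1 / 2 : ℝ) ≤ 1 := by
  have hX : 4 ≤ X := H.four
  rw [← Real.sqrt_eq_rpow]
  have hs : 2 ≤ √X := Real.le_sqrt_of_sq_le (by linarith)
  constructor
  · positivity
  · rw [div_le_one (by linarith)]
    exact hs

include H in
theorem log_le_t : Real.log X ≤ Real.log (2 + X) := by
  have hX : 4 ≤ X := H.four
  exact Real.log_le_log (by linarith) (by linarith)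

include H in
theorem t_ge : a + 2 ≤ Real.log (2 + X) := H.lg.trans (log_le_t H)

include hδ hδ' H in
theorem exp_t : Real.exp (δ * Real.log (2 + X)) ≤ 2 * X ^ δ := by
  have hX : 4 ≤ X := H.four
  have e : Real.exp (δ * Real.log (2 + X)) = (2 + X) ^ δ := by
    rw [Real.rpow_def_of_pos (by linarith), mul_comm]
  rw [e]
  calc (2 + X) ^ δ ≤ (2 * X) ^ δ := Real.rpow_le_rpow (by linarith) (by linarith) hδ.le
    _ = 2 ^ δ * X ^ δ := Real.mul_rpow (by norm_num) (by linarith)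
    _ ≤ 2 ^ (1 : ℝ) * X ^ δ := by
      gcongr
      · norm_num
      · linarith
    _ = 2 * X ^ δ := by rw [Real.rpow_one]

include hδ hδ' H in
theorem exp_dtau : Real.exp (δ * (2 / X ^ (1 / 2 : ℝ))) ≤ 2 := by
  obtain ⟨h0, h1⟩ := tau_bounds H
  have h2 : δ * (2 / X ^ (1 / 2 : ℝ)) ≤ 1 / 32 := by
    calc δ * (2 / X ^ (1 / 2 : ℝ)) ≤ 1 / 32 * 1 := by gcongr
      _ = 1 / 32 := by norm_num
  have h3 := exp_le_of_small (s := δ * (2 / X ^ (1 / 2 : ℝ))) (by positivity) (by linarith)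
  linarith

include hδ hδ' H in
theorem ceil_le : ((⌈Real.exp (δ * (Real.log (2 + X) + 2 / X ^ (1 / 2 : ℝ)))⌉₊ : ℕ) : ℝ) ≤ X ^ (2 * δ) := by
  have hX : 4 ≤ X := H.four
  have h1 := exp_t hδ hδ' H
  have h2 := exp_dtau hδ hδ' H
  have h3 : (⌈Real.exp (δ * (Real.log (2 + X) + 2 / X ^ (1 / 2 : ℝ)))⌉₊ : ℝ) ≤
      Real.exp (δ * (Real.log (2 + X) + 2 / X ^ (1 / 2 : ℝ))) + 1 := (Nat.ceil_lt_add_one (by positivity)).le
  refine h3.trans ?_
  rw [mul_add, Real.exp_add]
  have h4 : X ^ (2 * δ) = X ^ δ * X ^ δ := by rw [two_mul, Real.rpow_add (by linarith)]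
  rw [h4]
  have h5 := H.five
  calc Real.exp (δ * Real.log (2 + X)) * Real.exp (δ * (2 / X ^ (1 / 2 : ℝ))) + 1 ≤ (2 * X ^ δ) * 2 + 1 := by gcongr
    _ ≤ 5 * X ^ δ := by linarith
    _ ≤ X ^ δ * X ^ δ := by gcongr

include hδ hδ' ha H in
theorem mass_le (N : ℝ) (hN : N ≤ Real.exp (δ * (Real.log (2 + X) + 2 / X ^ (1 / 2 : ℝ))) + 1) :
    (1 - a / (Real.log (2 + X) + 2 / X ^ (1 / 2 : ℝ))) +
      a / (Real.log (2 + X) - 2 / X ^ (1 / 2 : ℝ)) *
        Real.exp (-(δ * (Real.log (2 + X) - 2 / X ^ (1 / 2 : ℝ)))) * N ≤ 1 + 1 / Real.log X ^ 2 := by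
  have hX : 4 ≤ X := H.four
  obtain ⟨h0, h1⟩ := tau_bounds H
  have ht := t_ge H
  have h2 := exp_dtau hδ hδ' H
  have hXδ : 0 < X ^ δ := by positivity
  have hlog : 0 < Real.log X := by linarith [H.lg]
  have h9 : 8 * a / X ^ δ ≤ 1 / Real.log X ^ 2 := by
    rw [div_le_div_iff₀ hXδ (by positivity)]
    linarith [H.sq]
  have h10 : 2 / X ^ (1 / 2 : ℝ) ≤ 2 / X ^ δ := by
    have : X ^ δ ≤ X ^ (1 / 2 : ℝ) := Real.rpow_le_rpow_of_exponent_le (by linarith) (by linarith)
    gcongr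
  have h11 : Real.exp (-(δ * Real.log (2 + X))) ≤ 1 / X ^ δ := by
    rw [Real.exp_neg, ← one_div]
    have : X ^ δ ≤ Real.exp (δ * Real.log (2 + X)) := by
      have e : Real.exp (δ * Real.log (2 + X)) = (2 + X) ^ δ := by
        rw [Real.rpow_def_of_pos (by linarith), mul_comm]
      rw [e]
      exact Real.rpow_le_rpow (by linarith) (by linarith) hδ.le
    gcongr
  set τ := 2 / X ^ (1 / 2 : ℝ) with hτ
  set t := Real.log (2 + X) with ht'
  have hm : 1 ≤ t - τ := by linarith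
  have hp : 1 ≤ t + τ := by linarith
  have h3 : Real.exp (2 * δ * τ) ≤ 1 + 2 * (2 * δ * τ) := by
    refine exp_le_of_small (by positivity) ?_
    calc 2 * δ * τ ≤ 2 * (1 / 32) * 1 := by gcongr
      _ ≤ 1 / 2 := by norm_num
  have h4 : Real.exp (-(δ * (t - τ))) * N ≤ Real.exp (2 * δ * τ) + Real.exp (-(δ * (t - τ))) := by
    calc Real.exp (-(δ * (t - τ))) * N ≤ Real.exp (-(δ * (t - τ))) * (Real.exp (δ * (t + τ)) + 1) := by gcongr
      _ = Real.exp (2 * δ * τ) + Real.exp (-(δ * (t - τ))) := by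
        rw [mul_add, mul_one, ← Real.exp_add]
        congr 2
        ring
  have h5 : Real.exp (-(δ * (t - τ))) ≤ 2 / X ^ δ := by
    have e : -(δ * (t - τ)) = -(δ * t) + δ * τ := by ring
    rw [e, Real.exp_add]
    calc Real.exp (-(δ * t)) * Real.exp (δ * τ) ≤ (1 / X ^ δ) * 2 := by gcongr
      _ = 2 / X ^ δ := by ring
  have h6 : a / (t - τ) - a / (t + τ) ≤ 2 * a * τ := by
    rw [div_sub_div _ _ (by linarith) (by linarith), div_le_iff₀ (by positivity)]
    have h7 : 1 ≤ (t - τ) * (t + τ) := one_le_mul_of_one_le_of_one_le hm hp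
    have h8 : 0 < 2 * a * τ := by positivity
    nlinarith
  have h7 : a / (t - τ) ≤ a := div_le_self ha.le hm
  have h8 : a / (t - τ) * (Real.exp (-(δ * (t - τ))) * N) ≤ a / (t - τ) + a * (2 * (2 * δ * τ)) + a * (2 / X ^ δ) := by
    have h12 : 0 ≤ a / (t - τ) := by positivity
    calc a / (t - τ) * (Real.exp (-(δ * (t - τ))) * N) ≤ a / (t - τ) * ((1 + 2 * (2 * δ * τ)) + 2 / X ^ δ) := by
          gcongr
          linarith
      _ = a / (t - τ) + a / (t - τ) * (2 * (2 * δ * τ)) + a / (t - τ) * (2 / X ^ δ) := by ring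
      _ ≤ a / (t - τ) + a * (2 * (2 * δ * τ)) + a * (2 / X ^ δ) := by gcongr
  have h13 : a * τ ≤ a * (2 / X ^ δ) := by gcongr
  have h14 : a * (2 * (2 * δ * τ)) ≤ a * τ := by
    have : 4 * δ ≤ 1 := by linarith
    calc a * (2 * (2 * δ * τ)) = (4 * δ) * (a * τ) := by ring
      _ ≤ 1 * (a * τ) := by gcongr
      _ = a * τ := one_mul _
  have h15 : 8 * a / X ^ δ = 4 * (a * (2 / X ^ δ)) := by ring
  have h16 : (1 - a / (t + τ)) + a / (t - τ) * Real.exp (-(δ * (t - τ))) * N ≤ 1 + 8 * a / X ^ δ := by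
    rw [h15, mul_assoc]
    linarith
  linarith

end

/-- the total mass of the majorant -/
theorem sum_majorant (p q : ℝ) (hq : 0 ≤ q) (N : ℕ) :
    ∑ u ∈ Icc (-(N : ℤ)) N, (p * (if u = 0 then (1 : ℝ) else 0) + q * (if 0 ≤ u ∧ u < N then (1 : ℝ) else 0)) ≤
      p + q * N := by
  rw [sum_add_distrib, ← mul_sum, ← mul_sum]
  have h1 : ∑ u ∈ Icc (-(N : ℤ)) N, (if u = 0 then (1 : ℝ) else 0) = 1 := by
    rw [Finset.sum_ite_eq' (Icc (-(N : ℤ)) N) (0 : ℤ) (fun _ => (1 : ℝ)), if_pos]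
    rw [mem_Icc]
    constructor
    · have : (0 : ℤ) ≤ N := by positivity
      linarith
    · positivity
  have h2 : ∑ u ∈ Icc (-(N : ℤ)) N, (if 0 ≤ u ∧ u < N then (1 : ℝ) else 0) ≤ N := by
    rw [Finset.sum_boole]
    have h3 : ((Icc (-(N : ℤ)) N).filter fun u : ℤ => 0 ≤ u ∧ u < (N : ℤ)) ⊆ Ico (0 : ℤ) N := by
      intro u hu
      rw [mem_filter] at hu
      rw [mem_Ico]
      exact hu.2
    have h4 := card_le_card h3
    rw [Int.card_Ico] at h4
    simp only [sub_zero, Int.toNat_natCast] at h4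
    exact_mod_cast h4
  rw [h1, mul_one]
  gcongr

theorem siz_le_of {δ t' : ℝ} {x' : ℤ} (hδ : 0 < δ) (h : Real.log (2 + |(x' : ℝ)|) ≤ t') :
    siz δ x' ≤ ⌈Real.exp (δ * t')⌉₊ := by
  unfold siz
  rw [exp_log_rpow]
  exact Nat.ceil_le_ceil (by gcongr)

theorem siz_ge_of {δ t' : ℝ} {x' : ℤ} (hδ : 0 < δ) (h : t' ≤ Real.log (2 + |(x' : ℝ)|)) :
    Real.exp (δ * t') ≤ siz δ x' := by
  unfold siz
  rw [exp_log_rpow]
  refine le_trans ?_ (Nat.le_ceil _)
  gcongr

theorem siz_lt (δ : ℝ) (x : ℤ) : (siz δ x : ℝ) ≤ Real.exp (δ * Real.log (2 + |(x : ℝ)|)) + 1 := by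
  unfold siz
  rw [exp_log_rpow]
  exact (Nat.ceil_lt_add_one (by positivity)).le

/-- **Package LAW of project DZ.** -/
theorem t_LAW : S_LAW := by
  intro d hd δ hδ hδ' A hA
  have hd0 : (0 : ℝ) < d := by positivity
  have ha : (0 : ℝ) < 2 * d * A := by positivity
  obtain ⟨M₀, hM⟩ := large δ hδ (2 * d * A) ha
  refine ⟨M₀, ?_, ?_, ?_, ?_⟩
  · intro x u
    exact measureReal_nonneg
  · intro x
    have := rare_prob (eps_nonneg ha x) (eps_le_one _ x) (siz_pos δ x)
    rw [sum_measureReal_singleton]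
    exact measureReal_le_one
  · intro x hx
    obtain ⟨c1, c2, c3, c4⟩ := hM |(x : ℝ)| hx
    have H : Num δ (2 * d * A) |(x : ℝ)| := ⟨c1, c2, c3, c4⟩
    set a : ℝ := 2 * d * A with ha'
    obtain ⟨h0, h1⟩ := tau_bounds H
    have ht := t_ge H
    have hmass := mass_le hδ hδ' ha H
    have hceil := ceil_le hδ hδ' H
    have hclose : ∀ x' : ℤ, |(x' : ℝ) - x| ≤ |(x : ℝ)| ^ (1 / 2 : ℝ) →
        |Real.log (2 + |(x' : ℝ)|) - Real.log (2 + |(x : ℝ)|)| ≤ 2 / |(x : ℝ)| ^ (1 / 2 : ℝ) := by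
      intro x' hx'
      exact log_close c1 (abs_nonneg _) ((abs_abs_sub_abs_le _ _).trans hx')
    set τ := 2 / |(x : ℝ)| ^ (1 / 2 : ℝ) with hτ
    set t := Real.log (2 + |(x : ℝ)|) with ht'
    have hq : 0 ≤ a / (t - τ) * Real.exp (-(δ * (t - τ))) := by
      have : 0 < t - τ := by linarith
      positivity
    have hp : 0 ≤ 1 - a / (t + τ) := by
      rw [sub_nonneg, div_le_one (by linarith)]
      linarith
    refine ⟨⌈Real.exp (δ * (t + τ))⌉₊, fun u => (1 - a / (t + τ)) * (if u = 0 then (1 : ℝ) else 0) +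
      a / (t - τ) * Real.exp (-(δ * (t - τ))) *
        (if 0 ≤ u ∧ u < (⌈Real.exp (δ * (t + τ))⌉₊ : ℕ) then (1 : ℝ) else 0), hceil, ?_, ?_, ?_⟩
    · intro u
      have h2 : (0 : ℝ) ≤ if u = 0 then (1 : ℝ) else 0 := by split_ifs <;> norm_num
      have h3 : (0 : ℝ) ≤ if 0 ≤ u ∧ u < (⌈Real.exp (δ * (t + τ))⌉₊ : ℕ) then (1 : ℝ) else 0 := by
        split_ifs <;> norm_num
      exact add_nonneg (mul_nonneg hp h2) (mul_nonneg hq h3)
    · refine (sum_majorant _ _ hq _).trans ?_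
      exact hmass _ (Nat.ceil_lt_add_one (by positivity)).le
    · intro x' hx'
      have h2 := hclose x' hx'
      rw [abs_le] at h2
      have h3 : Real.log (2 + |(x' : ℝ)|) ≤ t + τ := by linarith
      have h4 : t - τ ≤ Real.log (2 + |(x' : ℝ)|) := by linarith
      have hB : siz δ x' ≤ ⌈Real.exp (δ * (t + τ))⌉₊ := siz_le_of hδ h3
      refine ⟨hB, fun u _ => ?_⟩
      have h5 : 0 < Real.log (2 + |(x' : ℝ)|) := log_ge (abs_nonneg _)
      have e1 : a / (t + τ) ≤ eps a x' := by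
        unfold eps
        refine le_min ?_ ?_
        · rw [div_le_one (by linarith)]
          linarith
        · gcongr
      have e2 : eps a x' ≤ a / (t - τ) := by
        unfold eps
        refine (min_le_right _ _).trans ?_
        have : 0 < t - τ := by linarith
        gcongr
      have e3 : Real.exp (δ * (t - τ)) ≤ siz δ x' := siz_ge_of hδ h4
      have hN : (0 : ℝ) < siz δ x' := by exact_mod_cast siz_pos δ x'
      have e4 : eps a x' / (siz δ x' : ℝ) ≤ a / (t - τ) * Real.exp (-(δ * (t - τ))) := by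
        rw [Real.exp_neg, ← div_eq_mul_inv]
        have h0' := eps_nonneg ha x'
        have h1' : 0 ≤ a / (t - τ) := h0'.trans e2
        gcongr
      change (rare (eps a x') (siz δ x')).real {u} ≤ _
      rw [rare_real (eps_nonneg ha x') (eps_le_one _ x')]
      have h6 : (if 0 ≤ u ∧ u < (siz δ x' : ℕ) then (1 : ℝ) else 0) ≤
          if 0 ≤ u ∧ u < (⌈Real.exp (δ * (t + τ))⌉₊ : ℕ) then (1 : ℝ) else 0 := by
        by_cases h : 0 ≤ u ∧ u < (siz δ x' : ℕ)
        · rw [if_pos h, if_pos]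
          refine ⟨h.1, h.2.trans_le ?_⟩
          exact_mod_cast hB
        · rw [if_neg h]
          split_ifs <;> norm_num
      have h7 : (0 : ℝ) ≤ if 0 ≤ u ∧ u < (siz δ x' : ℕ) then (1 : ℝ) else 0 := by split_ifs <;> norm_num
      refine add_le_add ?_ ?_
      · have h8 : (0 : ℝ) ≤ if u = 0 then (1 : ℝ) else 0 := by split_ifs <;> norm_num
        exact mul_le_mul_of_nonneg_right (by linarith) h8
      · exact mul_le_mul e4 h6 h7 hq
  · intro x hx
    obtain ⟨c1, c2, c3, c4⟩ := hM |(x : ℝ)| hx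
    have H : Num δ (2 * d * A) |(x : ℝ)| := ⟨c1, c2, c3, c4⟩
    have hN := siz_pos δ x
    have hX : 4 ≤ |(x : ℝ)| := c1
    set N := siz δ x with hN'
    have hd1 : 1 < d := by omega
    have hlow : d ^ Nat.log d N ≤ N := Nat.pow_log_le_self d hN.ne'
    have hup : N < d ^ (Nat.log d N + 1) := Nat.lt_pow_succ_log_self hd1 N
    have hlowR : (d : ℝ) ^ Nat.log d N ≤ N := by exact_mod_cast hlow
    have hupR : (N : ℝ) ≤ (d : ℝ) ^ (Nat.log d N + 1) := by exact_mod_cast hup.le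
    have hlogX : 0 < Real.log |(x : ℝ)| := by linarith [H.lg]
    refine ⟨Nat.log d N, ?_, ?_, hlow, ?_⟩
    · have h1 : Real.exp (δ * Real.log |(x : ℝ)|) ≤ N := siz_ge_of hδ (log_le_t H)
      have h2 := h1.trans hupR
      have h3 := Real.log_le_log (Real.exp_pos _) h2
      rw [Real.log_exp, Real.log_pow] at h3
      push_cast at h3
      exact h3
    · refine hlowR.trans ((siz_lt δ x).trans ?_)
      have h1 := exp_t hδ hδ' H
      have h4 : |(x : ℝ)| ^ (2 * δ) = |(x : ℝ)| ^ δ * |(x : ℝ)| ^ δ := by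
        rw [two_mul, Real.rpow_add (by linarith)]
      rw [h4]
      calc Real.exp (δ * Real.log (2 + |(x : ℝ)|)) + 1 ≤ 2 * |(x : ℝ)| ^ δ + 1 := by gcongr
        _ ≤ 5 * |(x : ℝ)| ^ δ := by linarith
        _ ≤ |(x : ℝ)| ^ δ * |(x : ℝ)| ^ δ := by gcongr
    · intro u hu0 hu1
      have huN : u < (N : ℤ) := lt_of_lt_of_le hu1 (by exact_mod_cast hlow)
      have h1 := rare_mass (eps_nonneg ha x) (eps_le_one _ x) hN u hu0 huN
      refine le_trans ?_ h1
      have ht := t_ge H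
      have hdA : (0 : ℝ) < 2 * d * A := ha
      have e1 : eps (2 * d * A) x = 2 * d * A / Real.log (2 + |(x : ℝ)|) := by
        unfold eps
        apply min_eq_right
        rw [div_le_one (by linarith)]
        linarith
      rw [e1]
      have hlog2 : Real.log (2 + |(x : ℝ)|) ≤ 2 * Real.log |(x : ℝ)| := by
        have : 2 * Real.log |(x : ℝ)| = Real.log (|(x : ℝ)| ^ 2) := by
          rw [Real.log_pow]; push_cast; ring
        rw [this]
        exact Real.log_le_log (by linarith) (by nlinarith)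
      have hNpos : (0 : ℝ) < N := by exact_mod_cast hN
      have ht0 : 0 < Real.log (2 + |(x : ℝ)|) := by linarith
      have hdi : (0 : ℝ) < (d : ℝ) ^ Nat.log d N := by positivity
      rw [div_div, div_div, div_le_div_iff₀ (by positivity) (by positivity)]
      calc A * (Real.log (2 + |(x : ℝ)|) * (N : ℝ)) ≤
          A * ((2 * Real.log |(x : ℝ)|) * (d : ℝ) ^ (Nat.log d N + 1)) := by gcongr
        _ = 2 * d * A * (Real.log |(x : ℝ)| * (d : ℝ) ^ Nat.log d N) := by ring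

end Pool.Agent.U430.DZ
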